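import Pool.Agent.Q251.SH.Two

/-!
# Completing a net of deficiency two
-/

set_option autoImplicit false
set_option linter.unusedSectionVars false

namespace Pool.Agent.Q251.SH

open Finset

section

variable {ι W : Type} [Fintype ι] [Nontrivial ι] [Fintype W] [DecidableEq W] {n : ℕ}
  {f : ι → W → Fin n}

/-- the projection to a clique -/
theorem exists_proj (h : IsNet n f) (hc : Fintype.card ι + 1 = n) {K : Finset W} (hK : Cl f K) :
    ∃ g : W → {w // w ∈ K}, ∀ (p : W) (s : {w // w ∈ K}), g p = s ↔ p ∈ fib f K s.1 := by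
  classical
  have key : ∀ p : W, ∃ s : {w // w ∈ K}, ∀ s' : {w // w ∈ K}, s = s' ↔ p ∈ fib f K s'.1 := by
    intro p
    unfold fib
    by_cases hp : p ∈ K
    · refine ⟨⟨p, hp⟩, fun s' => ?_⟩
      rw [mem_insert]
      constructor
      · rintro rfl
        exact Or.inl rfl
      · rintro (h1 | h1)
        · exact Subtype.ext h1
        · exact absurd hp (mem_sdiff.1 h1).2
    · have h1 := one_adj h hc hK hp
      rw [card_eq_one] at h1
      obtain ⟨s, hs⟩ := h1
      have h2 : s ∈ K.filter (fun w => ad f p w) := by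
        rw [hs]
        exact mem_singleton_self s
      obtain ⟨h3, h4⟩ := mem_filter.1 h2
      refine ⟨⟨s, h3⟩, fun s' => ?_⟩
      rw [mem_insert]
      constructor
      · rintro rfl
        exact Or.inr (mem_sdiff.2 ⟨mem_nb.2 (ad_symm h4), hp⟩)
      · rintro (h5 | h5)
        · exact absurd (h5 ▸ s'.2) hp
        · have h6 : s'.1 ∈ K.filter (fun w => ad f p w) :=
            mem_filter.2 ⟨s'.2, ad_symm (mem_nb.1 (mem_sdiff.1 h5).1)⟩
          rw [hs, mem_singleton] at h6
          exact Subtype.ext h6.symm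
  choose g hg using key
  exact ⟨g, hg⟩

/-- **Completion**: two more columns. -/
theorem complete (h : IsNet n f) (hc : Fintype.card ι + 1 = n) (hn : 5 ≤ n) :
    ∃ g : ι ⊕ Bool → W → Fin n, ∀ p q, p ≠ q → ∃! k, g k p = g k q := by
  classical
  have hW : Fintype.card W = n * n := card_words h
  have hne : Nonempty W := by
    rw [← Fintype.card_pos_iff, hW]
    positivity
  obtain ⟨o⟩ := hne
  have h1 : (nb f o).Nonempty := by
    rw [← card_pos]
    have := c1 h hc o
    omega
  obtain ⟨y₁, hy₁⟩ := h1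
  have hy₁ := mem_nb.1 hy₁
  obtain ⟨y₂, hy₂, hy12, hny⟩ := exists_nonadj h hc hn hy₁
  obtain ⟨K₁, hK₁⟩ : ∃ K, K = KK f o y₁ := ⟨_, rfl⟩
  obtain ⟨K₂, hK₂⟩ : ∃ K, K = KK f o y₂ := ⟨_, rfl⟩
  have k1 : Cl f K₁ := hK₁ ▸ KK_cl h hc hn hy₁
  have k2 : Cl f K₂ := hK₂ ▸ KK_cl h hc hn hy₂
  have o1 : o ∈ K₁ := by
    rw [hK₁]
    unfold KK
    exact mem_insert_self _ _
  have o2 : o ∈ K₂ := by
    rw [hK₂]
    unfold KK
    exact mem_insert_self _ _
  have y11 : y₁ ∈ K₁ := by
    rw [hK₁]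
    unfold KK
    exact mem_insert_of_mem (mem_insert_self _ _)
  have y22 : y₂ ∈ K₂ := by
    rw [hK₂]
    unfold KK
    exact mem_insert_of_mem (mem_insert_self _ _)
  have y21 : y₂ ∉ K₁ := by
    intro h2
    exact hny (k1.1 y₁ y11 y₂ h2 hy12.symm)
  have hint : ∀ z, z ∈ K₁ → z ∈ K₂ → z = o := by
    intro z h2 h3
    by_contra h4
    have h5 := Cl.eq h hc hn k1 k2 o1 h2 o2 h3 (Ne.symm h4)
    rw [h5] at y21
    exact y21 y22
  obtain ⟨g₁, hg₁⟩ := exists_proj h hc k1
  obtain ⟨g₂, hg₂⟩ := exists_proj h hc k2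
  have m1 : ∀ p, p ∈ fib f K₁ (g₁ p).1 := fun p => (hg₁ p _).1 rfl
  have m2 : ∀ p, p ∈ fib f K₂ (g₂ p).1 := fun p => (hg₂ p _).1 rfl
  -- the key: the two projections separate the words
  have F3 : ∀ p q, g₁ p = g₁ q → g₂ p = g₂ q → p = q := by
    intro p q e1 e2
    by_contra hpq
    obtain ⟨t, ht⟩ : ∃ t, t = g₁ p := ⟨_, rfl⟩
    obtain ⟨s, hs⟩ : ∃ s, s = g₂ p := ⟨_, rfl⟩
    have a1 : p ∈ fib f K₁ t.1 := ht ▸ m1 p
    have a2 : q ∈ fib f K₁ t.1 := by
      rw [ht, e1]
      exact m1 q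
    have a3 : p ∈ fib f K₂ s.1 := hs ▸ m2 p
    have a4 : q ∈ fib f K₂ s.1 := by
      rw [hs, e2]
      exact m2 q
    have l1 := fib_cl h hc hn k1 t.2
    have l2 := fib_cl h hc hn k2 s.2
    have hLM := Cl.eq h hc hn l1 l2 a1 a2 a3 a4 hpq
    have ht' : t.1 ∈ fib f K₁ t.1 := mem_insert_self _ _
    have hs' : s.1 ∈ fib f K₁ t.1 := by
      rw [hLM]
      exact mem_insert_self _ _
    by_cases ho : o ∈ fib f K₁ t.1
    · have b1 : o = t.1 := by
        rcases mem_insert.1 ho with b | b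
        · exact b
        · exact absurd o1 (mem_sdiff.1 b).2
      have b2 : o = s.1 := by
        have b3 := ho
        rw [hLM] at b3
        rcases mem_insert.1 b3 with b | b
        · exact b
        · exact absurd o2 (mem_sdiff.1 b).2
      have b3 : y₁ ∈ fib f K₂ s.1 := by
        refine mem_insert_of_mem (mem_sdiff.2 ⟨?_, fun b4 => ?_⟩)
        · rw [← b2]
          exact mem_nb.2 hy₁
        · exact hy₁.1 (hint y₁ y11 b4).symm
      rw [← hLM] at b3
      rcases mem_insert.1 b3 with b | b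
      · exact hy₁.1 (b1.trans b.symm)
      · exact (mem_sdiff.1 b).2 y11
    · have b1 : ad f o t.1 := k1.1 o o1 t.1 t.2 (fun b => ho (b ▸ ht'))
      have b2 : ad f o s.1 := k2.1 o o2 s.1 s.2 (fun b => ho (b ▸ hs'))
      have b3 := one_adj h hc l1 ho
      rw [card_eq_one] at b3
      obtain ⟨w, hw⟩ := b3
      have b4 : t.1 ∈ (fib f K₁ t.1).filter (fun w => ad f o w) := mem_filter.2 ⟨ht', b1⟩
      have b5 : s.1 ∈ (fib f K₁ t.1).filter (fun w => ad f o w) := mem_filter.2 ⟨hs', b2⟩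
      rw [hw, mem_singleton] at b4 b5
      have b6 : t.1 = s.1 := b4.trans b5.symm
      have b7 := hint t.1 t.2 (b6 ▸ s.2)
      exact ho (b7 ▸ ht')
  -- adjacent words have one equal projection
  have F2 : ∀ p q, ad f p q → g₁ p = g₁ q ∨ g₂ p = g₂ q := by
    intro p q hpq
    let S₁ : Finset W := (fib f K₁ (g₁ p).1).erase p
    let S₂ : Finset W := (fib f K₂ (g₂ p).1).erase p
    have l1 := fib_cl h hc hn k1 (g₁ p).2
    have l2 := fib_cl h hc hn k2 (g₂ p).2
    have d1 : S₁.card = n - 1 := by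
      rw [card_erase_of_mem (m1 p), l1.2]
    have d2 : S₂.card = n - 1 := by
      rw [card_erase_of_mem (m2 p), l2.2]
    have d3 : Disjoint S₁ S₂ := by
      rw [Finset.disjoint_left]
      intro w hw hw'
      obtain ⟨w1, w2⟩ := mem_erase.1 hw
      obtain ⟨-, w3⟩ := mem_erase.1 hw'
      exact w1 (F3 w p ((hg₁ w _).2 w2) ((hg₂ w _).2 w3))
    have d4 : S₁ ∪ S₂ ⊆ nb f p := by
      intro w hw
      rw [mem_nb]
      rcases mem_union.1 hw with hw | hw
      · obtain ⟨w1, w2⟩ := mem_erase.1 hw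
        exact l1.1 p (m1 p) w w2 w1.symm
      · obtain ⟨w1, w2⟩ := mem_erase.1 hw
        exact l2.1 p (m2 p) w w2 w1.symm
    have d5 : S₁ ∪ S₂ = nb f p := by
      refine eq_of_subset_of_card_le d4 ?_
      rw [card_union_of_disjoint d3, d1, d2]
      have := c1 h hc p
      omega
    have d6 : q ∈ S₁ ∪ S₂ := by
      rw [d5]
      exact mem_nb.2 hpq
    rcases mem_union.1 d6 with d7 | d7
    · exact Or.inl ((hg₁ q _).2 (mem_erase.1 d7).2).symm
    · exact Or.inr ((hg₂ q _).2 (mem_erase.1 d7).2).symm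
  have F1 : ∀ p q, p ≠ q → g₁ p = g₁ q → ad f p q := by
    intro p q hpq e
    have l1 := fib_cl h hc hn k1 (g₁ p).2
    exact l1.1 p (m1 p) q ((hg₁ q _).1 e.symm) hpq
  have F1' : ∀ p q, p ≠ q → g₂ p = g₂ q → ad f p q := by
    intro p q hpq e
    have l2 := fib_cl h hc hn k2 (g₂ p).2
    exact l2.1 p (m2 p) q ((hg₂ q _).1 e.symm) hpq
  have e1 : {w // w ∈ K₁} ≃ Fin n := Fintype.equivOfCardEq (by
    rw [Fintype.card_coe, k1.2, Fintype.card_fin])
  have e2 : {w // w ∈ K₂} ≃ Fin n := Fintype.equivOfCardEq (by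
    rw [Fintype.card_coe, k2.2, Fintype.card_fin])
  refine ⟨fun k p => Sum.elim (fun i => f i p) (fun b => if b then e1 (g₁ p) else e2 (g₂ p)) k, ?_⟩
  intro p q hpq
  by_cases had : ad f p q
  · rcases F2 p q had with e | e
    · refine ⟨Sum.inr true, ?_, ?_⟩
      · show e1 (g₁ p) = e1 (g₁ q)
        rw [e]
      · rintro (i | b) hk
        · exact absurd hk (had.2 i)
        · cases b with
          | true => rfl
          | false => exact absurd (F3 p q e (e2.injective hk)) hpq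
    · refine ⟨Sum.inr false, ?_, ?_⟩
      · show e2 (g₂ p) = e2 (g₂ q)
        rw [e]
      · rintro (i | b) hk
        · exact absurd hk (had.2 i)
        · cases b with
          | true => exact absurd (F3 p q (e1.injective hk) e) hpq
          | false => rfl
  · have h2 : ∃ i, f i p = f i q := by
      by_contra h3
      push Not at h3
      exact had ⟨hpq, h3⟩
    obtain ⟨i, hi⟩ := h2
    refine ⟨Sum.inl i, hi, ?_⟩
    rintro (j | b) hk
    · by_contra hji
      have hji' : j ≠ i := fun e => hji (by rw [e])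
      exact hpq (eq_of_two h hji' hk hi)
    · cases b with
      | true => exact absurd (F1 p q hpq (e1.injective hk)) had
      | false => exact absurd (F1' p q hpq (e2.injective hk)) had

end

end Pool.Agent.Q251.SH
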