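import Pool.Agent.Q251.SH.Comp
import Pool.Agent.H430R2.PermCubes.Upper
import Pool.Agent.Y942.LY.BR

/-!
# Variational sets of permutation cubes and affine planes
-/

set_option autoImplicit false

namespace Pool.Agent.Q251.SH

open Finset Pool.Agent.H430R2.PermCubes Pool.Agent.Y942.LY

/-- fixing `m - 2` of the cubes: `k - m` latin squares -/
theorem derive {m n k : ℕ} (hm : 2 ≤ m) (hn : 0 < n) (hk : m ≤ k)
    (C : Fin k → (Fin m → Fin n) → Fin n) (hC : IsVariationalSet m n k C) :
    ∃ D : Fin (k - m) → (Fin 2 → Fin n) → Fin n, IsVariationalSet 2 n (k - m) D := by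
  classical
  have hA : IsArray m n k C := hC.2
  have hb := hC.2 (Fin.castLE hk) (Fin.castLE_injective hk)
  let v : (Fin 2 → Fin n) → (Fin m → Fin n) := fun u i =>
    if (i : ℕ) = m - 2 then u 0 else if (i : ℕ) = m - 1 then u 1 else ⟨0, hn⟩
  have hw : ∀ u, ∃ w : Fin m → Fin n, ∀ i : Fin m, C (Fin.castLE hk i) w = v u i := by
    intro u
    obtain ⟨w, hw⟩ := hb.2 (v u)
    exact ⟨w, fun i => congrFun hw i⟩
  choose w hw using hw
  have hwinj : ∀ u u', w u = w u' → u = u' := by
    intro u u' h
    have h1 : v u = v u' := by
      funext i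
      rw [← hw u i, ← hw u' i, h]
    have h2 := congrFun h1 ⟨m - 2, by omega⟩
    have h3 := congrFun h1 ⟨m - 1, by omega⟩
    have e1 : ¬ m - 1 = m - 2 := by omega
    simp only [v, if_true, if_neg e1] at h2 h3
    funext l
    fin_cases l
    · exact h2
    · exact h3
  have hcol : ∀ (c : Fin k) (hc : (c : ℕ) < m) u, C c (w u) = v u ⟨c, hc⟩ := by
    intro c hc u
    rw [← hw u ⟨c, hc⟩]
    rfl
  have hvc : ∀ u (c : ℕ) (hc : c < m), c < m - 2 → v u ⟨c, hc⟩ = ⟨0, hn⟩ := by
    intro u c hc h
    simp only [v]
    rw [if_neg (by omega), if_neg (by omega)]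
  have hcardlt : ∀ l, l ≤ k → (univ.filter (fun c : Fin k => (c : ℕ) < l)).card = l := by
    intro l hl
    have h1 : (univ.filter (fun c : Fin k => (c : ℕ) < l)) =
        (univ : Finset (Fin l)).image (Fin.castLE hl) := by
      ext c
      rw [mem_filter, mem_image]
      constructor
      · rintro ⟨-, h⟩
        exact ⟨⟨c, h⟩, mem_univ _, rfl⟩
      · rintro ⟨d, -, rfl⟩
        exact ⟨mem_univ _, d.2⟩
    rw [h1, card_image_of_injective _ (Fin.castLE_injective hl), card_univ, Fintype.card_fin]
  let sh : Fin (k - m) → Fin k := fun j => ⟨m + j, by omega⟩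
  refine ⟨fun j u => C (sh j) (w u), ?_, ?_⟩
  · intro j i x
    rw [← Finite.injective_iff_bijective]
    intro t t' htt
    have htt' : C (sh j) (w (Function.update x i t)) = C (sh j) (w (Function.update x i t')) := htt
    let S : Finset (Fin k) := insert (sh j)
      ((univ.filter (fun c : Fin k => (c : ℕ) < m)).erase ⟨m - 2 + i, by omega⟩)
    have hS : m ≤ S.card := by
      have h1 : sh j ∉ (univ.filter (fun c : Fin k => (c : ℕ) < m)).erase ⟨m - 2 + i, by omega⟩ := by
        intro h2
        have h3 := (mem_filter.1 (mem_erase.1 h2).2).2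
        simp only [sh] at h3
        omega
      have h2 : (⟨m - 2 + i, by omega⟩ : Fin k) ∈ univ.filter (fun c : Fin k => (c : ℕ) < m) := by
        rw [mem_filter]
        exact ⟨mem_univ _, by show m - 2 + (i : ℕ) < m; omega⟩
      have h3 := card_insert_of_notMem h1
      rw [card_erase_of_mem h2, hcardlt m hk] at h3
      have h4 : S.card = m - 1 + 1 := h3
      omega
    have hagree : ∀ c ∈ S, C c (w (Function.update x i t)) = C c (w (Function.update x i t')) := by
      intro c hc
      rcases mem_insert.1 hc with hc | hc
      · rw [hc]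
        exact htt'
      · obtain ⟨h1, h2⟩ := mem_erase.1 hc
        have h3 : (c : ℕ) < m := (mem_filter.1 h2).2
        have h4 : (c : ℕ) ≠ m - 2 + i := fun h5 => h1 (Fin.ext h5)
        rw [hcol c h3, hcol c h3]
        simp only [v]
        by_cases h5 : (c : ℕ) = m - 2
        · rw [if_pos h5, if_pos h5]
          have h6 : (0 : Fin 2) ≠ i := by
            rintro rfl
            exact h4 (by simpa using h5)
          rw [Function.update_of_ne h6, Function.update_of_ne h6]
        · rw [if_neg h5, if_neg h5]
          by_cases h7 : (c : ℕ) = m - 1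
          · rw [if_pos h7, if_pos h7]
            have h6 : (1 : Fin 2) ≠ i := by
              rintro rfl
              exact h4 (by simp only [Fin.val_one]; omega)
            rw [Function.update_of_ne h6, Function.update_of_ne h6]
          · rw [if_neg h7, if_neg h7]
    have h8 := hwinj _ _ (hA.eq_of_agree S hS hagree)
    have h9 := congrFun h8 i
    rwa [Function.update_self, Function.update_self] at h9
  · intro e he
    rw [← Finite.injective_iff_bijective]
    intro u u' huu
    have h0 : C (sh (e 0)) (w u) = C (sh (e 0)) (w u') := congrFun huu 0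
    have h1 : C (sh (e 1)) (w u) = C (sh (e 1)) (w u') := congrFun huu 1
    have he01 : e 0 ≠ e 1 := fun h => absurd (he h) (by decide)
    let S : Finset (Fin k) := insert (sh (e 0)) (insert (sh (e 1))
      (univ.filter (fun c : Fin k => (c : ℕ) < m - 2)))
    have hS : m ≤ S.card := by
      have h2 : sh (e 1) ∉ univ.filter (fun c : Fin k => (c : ℕ) < m - 2) := by
        intro h3
        have h4 := (mem_filter.1 h3).2
        simp only [sh] at h4
        omega
      have h3 : sh (e 0) ∉ insert (sh (e 1)) (univ.filter (fun c : Fin k => (c : ℕ) < m - 2)) := by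
        intro h4
        rcases mem_insert.1 h4 with h5 | h5
        · refine he01 (Fin.ext ?_)
          have h6 : m + (e 0 : ℕ) = m + (e 1 : ℕ) := congrArg Fin.val h5
          omega
        · have h6 := (mem_filter.1 h5).2
          simp only [sh] at h6
          omega
      have h4 := card_insert_of_notMem h3
      rw [card_insert_of_notMem h2, hcardlt (m - 2) (by omega)] at h4
      have h5 : S.card = m - 2 + 1 + 1 := h4
      omega
    refine hwinj _ _ (hA.eq_of_agree S hS ?_)
    intro c hc
    rcases mem_insert.1 hc with hc | hc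
    · rw [hc]
      exact h0
    rcases mem_insert.1 hc with hc | hc
    · rw [hc]
      exact h1
    have h3 : (c : ℕ) < m - 2 := (mem_filter.1 hc).2
    rw [hcol c (by omega), hcol c (by omega), hvc u c (by omega) h3, hvc u' c (by omega) h3]

/-- latin squares give a net -/
theorem net_of_squares {n k : ℕ} (D : Fin k → (Fin 2 → Fin n) → Fin n)
    (hD : IsVariationalSet 2 n k D) :
    IsNet n (fun (s : Bool ⊕ Fin k) (u : Fin 2 → Fin n) =>
      Sum.elim (fun b => u (if b then 0 else 1)) (fun j => D j u) s) := by
  classical
  have hcard : Fintype.card (Fin 2 → Fin n) = Fintype.card (Fin n × Fin n) := by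
    rw [Fintype.card_fun, Fintype.card_prod, Fintype.card_fin, Fintype.card_fin]
    ring
  have hline : ∀ (b : Bool) (j : Fin k) (u u' : Fin 2 → Fin n),
      u (if b then 0 else 1) = u' (if b then 0 else 1) → D j u = D j u' → u = u' := by
    intro b j u u' h1 h2
    obtain ⟨l, hl⟩ : ∃ l : Fin 2, l ≠ (if b then 0 else 1) ∧ ∀ l', l' ≠ l → l' = if b then 0 else 1 := by
      cases b with
      | true => exact ⟨1, by decide, by decide⟩
      | false => exact ⟨0, by decide, by decide⟩
    have h3 : u' = Function.update u l (u' l) := by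
      funext l'
      by_cases h4 : l' = l
      · rw [h4, Function.update_self]
      · rw [Function.update_of_ne h4, hl.2 l' h4, h1]
    have h4 : u = Function.update u l (u l) := (Function.update_eq_self l u).symm
    have h5 : u l = u' l := by
      refine (hD.1 j l u).1 ?_
      show D j (Function.update u l (u l)) = D j (Function.update u l (u' l))
      rw [← h4, ← h3]
      exact h2
    rw [h3, ← h5, ← h4]
  intro s t hst
  rw [Fintype.bijective_iff_injective_and_card]
  refine ⟨?_, hcard⟩
  intro u u' huu
  have h1 := congrArg Prod.fst huu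
  have h2 := congrArg Prod.snd huu
  rcases s with b | i
  · rcases t with b' | j
    · simp only [Sum.elim_inl] at h1 h2
      have hbb : b ≠ b' := fun h => hst (by rw [h])
      funext l
      cases b <;> cases b'
      · exact absurd rfl hbb
      · fin_cases l
        · exact h2
        · exact h1
      · fin_cases l
        · exact h1
        · exact h2
      · exact absurd rfl hbb
    · exact hline b j u u' h1 h2
  · rcases t with b' | j
    · exact hline b' i u u' h2 h1
    · have hij : i ≠ j := fun h => hst (by rw [h])
      have h3 : Function.Injective (![i, j] : Fin 2 → Fin k) := by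
        intro a b hab
        fin_cases a <;> fin_cases b
        · rfl
        · exact absurd hab hij
        · exact absurd hab.symm hij
        · rfl
      refine (hD.2 ![i, j] h3).1 ?_
      funext l
      fin_cases l
      · exact h1
      · exact h2

/-- `n - 3` mutually orthogonal latin squares of order `n ≥ 5` give an affine plane of order `n` -/
theorem cc_of_squares {n k : ℕ} (hn : 5 ≤ n) (hk : n ≤ k + 3)
    (D : Fin k → (Fin 2 → Fin n) → Fin n) (hD : IsVariationalSet 2 n k D) : CC n := by
  classical
  have hl : n - 3 ≤ k := by omega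
  have hD' : IsVariationalSet 2 n (n - 3) (fun i => D (Fin.castLE hl i)) :=
    ⟨fun i => hD.1 _, fun e he => hD.2 (fun i => Fin.castLE hl (e i))
      (fun _ _ hab => he (Fin.castLE_injective hl hab))⟩
  have h1 := net_of_squares _ hD'
  have hnt : Nontrivial (Bool ⊕ Fin (n - 3)) := ⟨Sum.inl true, Sum.inl false, by simp⟩
  obtain ⟨g, hg⟩ := complete h1 (by
    rw [Fintype.card_sum, Fintype.card_bool, Fintype.card_fin]
    omega) hn
  have e : Fin (n + 1) ≃ ((Bool ⊕ Fin (n - 3)) ⊕ Bool) := Fintype.equivOfCardEq (by
    rw [Fintype.card_sum, Fintype.card_sum, Fintype.card_bool, Fintype.card_fin, Fintype.card_fin]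
    omega)
  have eW : (Fin n × Fin n) ≃ (Fin 2 → Fin n) := Fintype.equivOfCardEq (by
    rw [Fintype.card_fun, Fintype.card_prod, Fintype.card_fin, Fintype.card_fin]
    ring)
  refine ⟨fun P k => g (e k) (eW P), fun P Q hPQ => ?_⟩
  obtain ⟨s, hs1, hs2⟩ := hg (eW P) (eW Q) (fun h => hPQ (eW.injective h))
  refine ⟨e.symm s, ?_, ?_⟩
  · show g (e (e.symm s)) (eW P) = g (e (e.symm s)) (eW Q)
    rw [Equiv.apply_symm_apply]
    exact hs1
  · intro k hk
    rw [← hs2 (e k) hk, Equiv.symm_apply_apply]

end Pool.Agent.Q251.SH
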