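import Mathlib

/-!
# Nets: counting the words that agree nowhere
-/

set_option autoImplicit false
set_option linter.unusedSectionVars false

namespace Pool.Agent.Q251.SH

open Finset

/-- `f` is a net of order `n` with the columns `ι` (an orthogonal array of strength two). -/
def IsNet {ι W : Type} (n : ℕ) (f : ι → W → Fin n) : Prop :=
  ∀ i j, i ≠ j → Function.Bijective (fun w => (f i w, f j w))

/-- two words agree in no column -/
def ad {ι W : Type} {n : ℕ} (f : ι → W → Fin n) (x y : W) : Prop := x ≠ y ∧ ∀ i, f i x ≠ f i y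

theorem ad_symm {ι W : Type} {n : ℕ} {f : ι → W → Fin n} {x y : W} (h : ad f x y) : ad f y x :=
  ⟨h.1.symm, fun i => (h.2 i).symm⟩

section

variable {ι W : Type} [Fintype ι] [Fintype W] {n : ℕ} {f : ι → W → Fin n}

open Classical in
/-- the number of agreements -/
noncomputable def ag (f : ι → W → Fin n) (x y : W) : ℤ := ∑ i, if f i x = f i y then 1 else 0

theorem ag_symm (x y : W) : ag f x y = ag f y x := by
  classical
  unfold ag
  exact sum_congr rfl fun i _ => by simp only [eq_comm]

theorem eq_of_two (h : IsNet n f) {i j : ι} (hij : i ≠ j) {x y : W} (h1 : f i x = f i y)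
    (h2 : f j x = f j y) : x = y := (h i j hij).1 (Prod.ext h1 h2)

theorem card_words [Nontrivial ι] (h : IsNet n f) : Fintype.card W = n * n := by
  obtain ⟨i, j, hij⟩ := exists_pair_ne ι
  rw [Fintype.card_of_bijective (h i j hij), Fintype.card_prod, Fintype.card_fin]

open Classical in
theorem card_fib [Nontrivial ι] (h : IsNet n f) (i : ι) (a : Fin n) :
    (univ.filter (fun w => f i w = a)).card = n := by
  obtain ⟨j, hij⟩ := exists_ne i
  refine Eq.trans ?_ (Finset.card_fin n)
  refine card_bij (fun w _ => f j w) ?_ ?_ ?_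
  · intro w _
    exact mem_univ _
  · intro w hw w' hw' h1
    exact eq_of_two h hij.symm ((mem_filter.1 hw).2.trans (mem_filter.1 hw').2.symm) h1
  · intro b _
    obtain ⟨w, hw⟩ := (h i j hij.symm).2 (a, b)
    exact ⟨w, mem_filter.2 ⟨mem_univ _, congrArg Prod.fst hw⟩, congrArg Prod.snd hw⟩

open Classical in
theorem card_pair (h : IsNet n f) {i j : ι} (hij : i ≠ j) (a b : Fin n) :
    (univ.filter (fun w => f i w = a ∧ f j w = b)).card = 1 := by
  rw [card_eq_one]
  obtain ⟨w, hw⟩ := (h i j hij).2 (a, b)
  refine ⟨w, ?_⟩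
  ext w'
  rw [mem_filter, mem_singleton]
  constructor
  · rintro ⟨-, h1, h2⟩
    exact (h i j hij).1 ((Prod.ext h1 h2 : (f i w', f j w') = (a, b)).trans hw.symm)
  · rintro rfl
    exact ⟨mem_univ _, congrArg Prod.fst hw, congrArg Prod.snd hw⟩

theorem ag_self (x : W) : ag f x x = Fintype.card ι := by
  classical
  simp [ag]

open Classical in
theorem ag_ne (h : IsNet n f) {x y : W} (hxy : x ≠ y) : ag f x y = if ad f x y then 0 else 1 := by
  by_cases had : ad f x y
  · rw [if_pos had]
    exact sum_eq_zero fun i _ => if_neg (had.2 i)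
  · rw [if_neg had]
    have h1 : ∃ i, f i x = f i y := by
      by_contra h2
      push Not at h2
      exact had ⟨hxy, h2⟩
    obtain ⟨i, hi⟩ := h1
    have h3 : ∀ j ∈ (univ : Finset ι), (if f j x = f j y then (1 : ℤ) else 0) =
        if j = i then 1 else 0 := by
      intro j _
      by_cases hj : j = i
      · rw [if_pos hj, hj, if_pos hi]
      · rw [if_neg hj, if_neg]
        exact fun h4 => hxy (eq_of_two h hj h4 hi)
    unfold ag
    rw [sum_congr rfl h3, sum_ite_eq', if_pos (mem_univ _)]

theorem sum_ag [Nontrivial ι] (h : IsNet n f) (x : W) :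
    ∑ w, ag f x w = (Fintype.card ι : ℤ) * n := by
  classical
  unfold ag
  rw [sum_comm]
  have h1 : ∀ i ∈ (univ : Finset ι), ∑ w : W, (if f i x = f i w then (1 : ℤ) else 0) = n := by
    intro i _
    have h2 := card_fib h i (f i x)
    have h3 : ∑ w : W, (if f i x = f i w then (1 : ℤ) else 0) =
        ((univ.filter (fun w => f i w = f i x)).card : ℤ) := by
      rw [card_filter]
      push_cast
      exact sum_congr rfl fun w _ => by simp only [eq_comm]
    rw [h3, h2]
  rw [sum_congr rfl h1, sum_const, card_univ, nsmul_eq_mul]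

theorem sum_ag_ag [Nontrivial ι] (h : IsNet n f) (x y : W) :
    ∑ w, ag f x w * ag f w y =
      (Fintype.card ι : ℤ) * ((Fintype.card ι : ℤ) - 1) + n * ag f x y := by
  classical
  have h1 : ∀ w, ag f x w * ag f w y = ∑ i, ∑ j, (if f i w = f i x ∧ f j w = f j y then (1 : ℤ)
      else 0) := by
    intro w
    unfold ag
    rw [sum_mul_sum]
    refine sum_congr rfl fun i _ => sum_congr rfl fun j _ => ?_
    by_cases h2 : f i x = f i w
    · by_cases h3 : f j w = f j y
      · rw [if_pos h2, if_pos h3, if_pos ⟨h2.symm, h3⟩, one_mul]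
      · rw [if_neg h3, mul_zero, if_neg (fun h4 => h3 h4.2)]
    · rw [if_neg h2, zero_mul, if_neg (fun h4 => h2 h4.1.symm)]
  rw [sum_congr rfl (fun w _ => h1 w), sum_comm]
  have h2 : ∀ i ∈ (univ : Finset ι), ∑ w : W, ∑ j, (if f i w = f i x ∧ f j w = f j y then (1 : ℤ)
      else 0) = ((Fintype.card ι : ℤ) - 1) + n * (if f i x = f i y then 1 else 0) := by
    intro i _
    rw [sum_comm]
    have h3 : ∀ j ∈ (univ : Finset ι), ∑ w : W, (if f i w = f i x ∧ f j w = f j y then (1 : ℤ)
        else 0) = 1 + if i = j then (n * (if f i x = f i y then (1 : ℤ) else 0) - 1) else 0 := by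
      intro j _
      have h4 : ∑ w : W, (if f i w = f i x ∧ f j w = f j y then (1 : ℤ) else 0) =
          ((univ.filter (fun w => f i w = f i x ∧ f j w = f j y)).card : ℤ) := by
        rw [card_filter]
        push_cast
        rfl
      rw [h4]
      by_cases hij : i = j
      · subst hij
        rw [if_pos rfl]
        by_cases h5 : f i x = f i y
        · have h6 : univ.filter (fun w => f i w = f i x ∧ f i w = f i y) =
              univ.filter (fun w => f i w = f i x) := by
            refine filter_congr fun w _ => ?_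
            rw [h5]
            simp
          rw [h6, card_fib h, if_pos h5]
          ring
        · have h6 : univ.filter (fun w => f i w = f i x ∧ f i w = f i y) = ∅ := by
            rw [filter_eq_empty_iff]
            rintro w - ⟨h7, h8⟩
            exact h5 (h7.symm.trans h8)
          rw [h6, card_empty, if_neg h5]
          ring
      · rw [if_neg hij, card_pair h hij]
        norm_num
    rw [sum_congr rfl h3, sum_add_distrib, sum_ite_eq, if_pos (mem_univ _), sum_const, card_univ,
      nsmul_eq_mul]
    ring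
  rw [sum_congr rfl h2, sum_add_distrib, sum_const, card_univ, nsmul_eq_mul, ← mul_sum]
  rfl

open Classical in
/-- the neighbours in the graph of the words that agree nowhere -/
noncomputable def nb (f : ι → W → Fin n) (x : W) : Finset W := univ.filter (fun w => ad f x w)

theorem mem_nb {x w : W} : w ∈ nb f x ↔ ad f x w := by
  classical
  unfold nb
  rw [mem_filter]
  exact ⟨fun h => h.2, fun h => ⟨mem_univ _, h⟩⟩

open Classical in
theorem bb (h : IsNet n f) (x w : W) : (if ad f x w then (1 : ℤ) else 0) =
    1 - ag f x w + if x = w then ((Fintype.card ι : ℤ) - 1) else 0 := by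
  by_cases hxw : x = w
  · subst hxw
    rw [if_pos rfl, ag_self, if_neg (fun h1 => h1.1 rfl)]
    ring
  · rw [if_neg hxw, ag_ne h hxw]
    by_cases h1 : ad f x w
    · rw [if_pos h1, if_pos h1]
      ring
    · rw [if_neg h1, if_neg h1]
      ring

theorem card_nb [Nontrivial ι] (h : IsNet n f) (x : W) :
    ((nb f x).card : ℤ) = (n : ℤ) * n - (Fintype.card ι : ℤ) * n + ((Fintype.card ι : ℤ) - 1) := by
  classical
  unfold nb
  rw [card_filter]
  push_cast
  rw [sum_congr rfl (fun w _ => bb h x w), sum_add_distrib, sum_sub_distrib, sum_ag h, sum_const,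
    card_univ, card_words h, nsmul_eq_mul, sum_ite_eq, if_pos (mem_univ _)]
  push_cast
  ring

theorem card_nb_nb [Nontrivial ι] [DecidableEq W] (h : IsNet n f) {x y : W} (hxy : x ≠ y) :
    ((nb f x ∩ nb f y).card : ℤ) = (n : ℤ) * n - 2 * (Fintype.card ι : ℤ) * n +
      (Fintype.card ι : ℤ) * ((Fintype.card ι : ℤ) - 1) + n * ag f x y +
      2 * ((Fintype.card ι : ℤ) - 1) * (1 - ag f x y) := by
  classical
  have h0 : nb f x ∩ nb f y = univ.filter (fun w => ad f x w ∧ ad f y w) := by
    ext w
    rw [mem_inter, mem_nb, mem_nb, mem_filter]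
    exact ⟨fun h => ⟨mem_univ _, h⟩, fun h => h.2⟩
  rw [h0, card_filter]
  push_cast
  obtain ⟨c, hc⟩ : ∃ c : ℤ, c = (Fintype.card ι : ℤ) := ⟨_, rfl⟩
  have h1 : ∀ w : W, (if ad f x w ∧ ad f y w then (1 : ℤ) else 0) =
      (1 - ag f x w - ag f w y + ag f x w * ag f w y) +
      (if x = w then (c - 1) * (1 - ag f w y) else 0) +
      (if w = y then (c - 1) * (1 - ag f x w) else 0) := by
    intro w
    have h2 : (if ad f x w ∧ ad f y w then (1 : ℤ) else 0) =
        (if ad f x w then (1 : ℤ) else 0) * (if ad f y w then (1 : ℤ) else 0) := by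
      by_cases h3 : ad f x w
      · by_cases h4 : ad f y w
        · rw [if_pos ⟨h3, h4⟩, if_pos h3, if_pos h4, one_mul]
        · rw [if_neg (fun h5 => h4 h5.2), if_neg h4, mul_zero]
      · rw [if_neg (fun h5 => h3 h5.1), if_neg h3, zero_mul]
    rw [h2, bb h x w, bb h y w, ← hc, ag_symm y w]
    by_cases h3 : x = w
    · have h4 : ¬ y = w := fun h5 => hxy (h3.trans h5.symm)
      rw [if_pos h3, if_neg h4, if_pos h3, if_neg (fun h5 => h4 h5.symm)]
      ring
    · rw [if_neg h3, if_neg h3]
      by_cases h4 : y = w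
      · rw [if_pos h4, if_pos h4.symm]
        ring
      · rw [if_neg h4, if_neg (fun h5 => h4 h5.symm)]
        ring
  rw [sum_congr rfl (fun w _ => h1 w), sum_add_distrib, sum_add_distrib, sum_add_distrib,
    sum_sub_distrib, sum_sub_distrib, sum_ite_eq, if_pos (mem_univ _), sum_ite_eq',
    if_pos (mem_univ _), sum_ag h, sum_ag_ag h, sum_const, card_univ, card_words h, nsmul_eq_mul,
    sum_congr rfl (fun w _ => ag_symm w y), sum_ag h, ← hc]
  push_cast
  ring

end

end Pool.Agent.Q251.SH
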