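import Pool.Agent.Q251.SH.Net

/-!
# Nets of deficiency two can be completed (Shrikhande, Bruck)
-/

set_option autoImplicit false
set_option linter.unusedSectionVars false

namespace Pool.Agent.Q251.SH

open Finset

section

variable {ι W : Type} [Fintype ι] [Nontrivial ι] [Fintype W] [DecidableEq W] {n : ℕ}
  {f : ι → W → Fin n}

theorem c1 (h : IsNet n f) (hc : Fintype.card ι + 1 = n) (x : W) : (nb f x).card + 2 = 2 * n := by
  have h1 := card_nb h x
  have h2 : (Fintype.card ι : ℤ) = n - 1 := by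
    have : ((Fintype.card ι : ℤ) + 1) = n := by exact_mod_cast hc
    linarith
  rw [h2] at h1
  have h3 : ((nb f x).card : ℤ) + 2 = 2 * n := by rw [h1]; ring
  exact_mod_cast h3

theorem c2 (h : IsNet n f) (hc : Fintype.card ι + 1 = n) {x y : W} (hxy : ad f x y) :
    (nb f x ∩ nb f y).card + 2 = n := by
  classical
  have h1 := card_nb_nb h hxy.1
  have h2 : (Fintype.card ι : ℤ) = n - 1 := by
    have : ((Fintype.card ι : ℤ) + 1) = n := by exact_mod_cast hc
    linarith
  rw [ag_ne h hxy.1, if_pos hxy, h2] at h1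
  have h3 : ((nb f x ∩ nb f y).card : ℤ) + 2 = n := by rw [h1]; ring
  exact_mod_cast h3

theorem c3 (h : IsNet n f) (hc : Fintype.card ι + 1 = n) {x y : W} (hxy : x ≠ y)
    (had : ¬ ad f x y) : (nb f x ∩ nb f y).card = 2 := by
  classical
  have h1 := card_nb_nb h hxy
  have h2 : (Fintype.card ι : ℤ) = n - 1 := by
    have : ((Fintype.card ι : ℤ) + 1) = n := by exact_mod_cast hc
    linarith
  rw [ag_ne h hxy, if_neg had, h2] at h1
  have h3 : ((nb f x ∩ nb f y).card : ℤ) = 2 := by rw [h1]; ring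
  exact_mod_cast h3

/-- no claws -/
theorem claw (h : IsNet n f) (hc : Fintype.card ι + 1 = n) (hn : 5 ≤ n) {x a b c : W}
    (ha : ad f x a) (hb : ad f x b) (hcc : ad f x c) (hab : a ≠ b) (hac : a ≠ c) (hbc : b ≠ c)
    (nab : ¬ ad f a b) (nac : ¬ ad f a c) (nbc : ¬ ad f b c) : False := by
  have key : ∀ u v : W, u ≠ v → ad f x u → ad f x v → ¬ ad f u v →
      ((nb f x ∩ nb f u) ∩ (nb f x ∩ nb f v)).card ≤ 1 := by
    intro u v huv hu hv nuv
    have h1 := c3 h hc huv nuv
    have h2 : x ∈ nb f u ∩ nb f v := mem_inter.2 ⟨mem_nb.2 (ad_symm hu), mem_nb.2 (ad_symm hv)⟩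
    have h3 : (nb f x ∩ nb f u) ∩ (nb f x ∩ nb f v) ⊆ (nb f u ∩ nb f v).erase x := by
      intro w hw
      obtain ⟨hw1, hw2⟩ := mem_inter.1 hw
      refine mem_erase.2 ⟨?_, mem_inter.2 ⟨(mem_inter.1 hw1).2, (mem_inter.1 hw2).2⟩⟩
      exact (mem_nb.1 (mem_inter.1 hw1).1).1.symm
    have h4 := card_le_card h3
    rw [card_erase_of_mem h2, h1] at h4
    exact h4
  have k1 := key a b hab ha hb nab
  have k2 := key a c hac ha hcc nac
  have k3 := key b c hbc hb hcc nbc
  have e1 := c2 h hc ha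
  have e2 := c2 h hc hb
  have e3 := c2 h hc hcc
  obtain ⟨A, hA⟩ : ∃ A, A = nb f x ∩ nb f a := ⟨_, rfl⟩
  obtain ⟨B, hB⟩ : ∃ B, B = nb f x ∩ nb f b := ⟨_, rfl⟩
  obtain ⟨C, hC⟩ : ∃ C, C = nb f x ∩ nb f c := ⟨_, rfl⟩
  rw [← hA, ← hB] at k1
  rw [← hA, ← hC] at k2
  rw [← hB, ← hC] at k3
  rw [← hA] at e1
  rw [← hB] at e2
  rw [← hC] at e3
  have u1 := card_union_add_card_inter A B
  have u2 := card_union_add_card_inter (A ∪ B) C
  have u3 : ((A ∪ B) ∩ C).card ≤ (A ∩ C).card + (B ∩ C).card := by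
    rw [union_inter_distrib_right]
    exact card_union_le _ _
  have hT : ({a, b, c} : Finset W).card = 3 := by
    rw [card_insert_of_notMem, card_insert_of_notMem, card_singleton]
    · simpa using hbc
    · simp only [mem_insert, mem_singleton, not_or]
      exact ⟨hab, hac⟩
  have hself : ∀ u : W, ¬ ad f u u := fun u hu => hu.1 rfl
  have hd : Disjoint ({a, b, c} : Finset W) (A ∪ B ∪ C) := by
    rw [Finset.disjoint_left]
    intro u hu hu'
    simp only [mem_insert, mem_singleton] at hu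
    simp only [mem_union, hA, hB, hC, mem_inter, mem_nb] at hu'
    rcases hu with rfl | rfl | rfl
    · rcases hu' with (hu' | hu') | hu'
      · exact hself _ hu'.2
      · exact nab (ad_symm hu'.2)
      · exact nac (ad_symm hu'.2)
    · rcases hu' with (hu' | hu') | hu'
      · exact nab hu'.2
      · exact hself _ hu'.2
      · exact nbc (ad_symm hu'.2)
    · rcases hu' with (hu' | hu') | hu'
      · exact nac hu'.2
      · exact nbc hu'.2
      · exact hself _ hu'.2
  have hsub : ({a, b, c} : Finset W) ∪ (A ∪ B ∪ C) ⊆ nb f x := by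
    intro u hu
    simp only [mem_union, mem_insert, mem_singleton, hA, hB, hC, mem_inter, mem_nb] at hu
    rw [mem_nb]
    rcases hu with (rfl | rfl | rfl) | (hu | hu) | hu
    · exact ha
    · exact hb
    · exact hcc
    · exact hu.1
    · exact hu.1
    · exact hu.1
  have h5 := card_le_card hsub
  rw [card_union_of_disjoint hd, hT] at h5
  have h6 := c1 h hc x
  omega

/-- a nonadjacent neighbour -/
theorem exists_nonadj (h : IsNet n f) (hc : Fintype.card ι + 1 = n) (hn : 5 ≤ n) {x y : W}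
    (hxy : ad f x y) : ∃ q, ad f x q ∧ q ≠ y ∧ ¬ ad f y q := by
  by_contra hcon
  push Not at hcon
  have h1 : (nb f x).erase y ⊆ nb f x ∩ nb f y := by
    intro q hq
    obtain ⟨h2, h3⟩ := mem_erase.1 hq
    exact mem_inter.2 ⟨h3, mem_nb.2 (hcon q (mem_nb.1 h3) h2)⟩
  have h2 := card_le_card h1
  rw [card_erase_of_mem (mem_nb.2 hxy)] at h2
  have h3 := c1 h hc x
  have h4 := c2 h hc hxy
  omega

/-- the common neighbours of two adjacent words form a clique -/
theorem clique (h : IsNet n f) (hc : Fintype.card ι + 1 = n) (hn : 5 ≤ n) {x y : W}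
    (hxy : ad f x y) {u v : W} (hu : u ∈ nb f x ∩ nb f y) (hv : v ∈ nb f x ∩ nb f y)
    (huv : u ≠ v) : ad f u v := by
  obtain ⟨q, hq1, hq2, hq3⟩ := exists_nonadj h hc hn hxy
  have h1 : ((nb f x).erase y).erase q ⊆ (nb f x ∩ nb f y) ∪ (nb f x ∩ nb f q) := by
    intro z hz
    obtain ⟨h2, h3⟩ := mem_erase.1 hz
    obtain ⟨h4, h5⟩ := mem_erase.1 h3
    by_contra h6
    rw [mem_union, not_or] at h6
    have h7 : ¬ ad f y z := fun h8 => h6.1 (mem_inter.2 ⟨h5, mem_nb.2 h8⟩)
    have h8 : ¬ ad f q z := fun h9 => h6.2 (mem_inter.2 ⟨h5, mem_nb.2 h9⟩)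
    exact claw h hc hn hxy hq1 (mem_nb.1 h5) hq2.symm h4.symm h2.symm hq3 h7 h8
  have h2 := card_le_card h1
  rw [card_erase_of_mem (mem_erase.2 ⟨hq2, mem_nb.2 hq1⟩), card_erase_of_mem (mem_nb.2 hxy)] at h2
  have h3 := card_union_add_card_inter (nb f x ∩ nb f y) (nb f x ∩ nb f q)
  have h4 := c1 h hc x
  have h5 := c2 h hc hxy
  have h6 := c2 h hc hq1
  have h7 : ((nb f x ∩ nb f y) ∩ (nb f x ∩ nb f q)).card = 0 := by omega
  rw [card_eq_zero] at h7
  have h8 : ∀ w, w ∈ nb f x ∩ nb f y → ¬ ad f w q := by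
    intro w hw h9
    have h10 : w ∈ (nb f x ∩ nb f y) ∩ (nb f x ∩ nb f q) :=
      mem_inter.2 ⟨hw, mem_inter.2 ⟨(mem_inter.1 hw).1, mem_nb.2 (ad_symm h9)⟩⟩
    rw [h7] at h10
    exact absurd h10 (notMem_empty _)
  have h9 : ∀ w, w ∈ nb f x ∩ nb f y → w ≠ q := by
    rintro w hw rfl
    exact hq3 (mem_nb.1 (mem_inter.1 hw).2)
  by_contra hcon
  exact claw h hc hn (mem_nb.1 (mem_inter.1 hu).1) (mem_nb.1 (mem_inter.1 hv).1) hq1 huv (h9 u hu)
    (h9 v hv) hcon (h8 u hu) (h8 v hv)

/-- cliques with `n` words -/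
def Cl (f : ι → W → Fin n) (L : Finset W) : Prop :=
  (∀ u ∈ L, ∀ v ∈ L, u ≠ v → ad f u v) ∧ L.card = n

/-- the clique of two adjacent words -/
noncomputable def KK (f : ι → W → Fin n) (x y : W) : Finset W := insert x (insert y (nb f x ∩ nb f y))

theorem KK_cl (h : IsNet n f) (hc : Fintype.card ι + 1 = n) (hn : 5 ≤ n) {x y : W}
    (hxy : ad f x y) : Cl f (KK f x y) := by
  have hself : ∀ u : W, ¬ ad f u u := fun u hu => hu.1 rfl
  constructor
  · intro u hu v hv huv
    unfold KK at hu hv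
    rw [mem_insert, mem_insert] at hu hv
    rcases hu with rfl | rfl | hu
    · rcases hv with rfl | rfl | hv
      · exact absurd rfl huv
      · exact hxy
      · exact mem_nb.1 (mem_inter.1 hv).1
    · rcases hv with rfl | rfl | hv
      · exact ad_symm hxy
      · exact absurd rfl huv
      · exact mem_nb.1 (mem_inter.1 hv).2
    · rcases hv with rfl | rfl | hv
      · exact ad_symm (mem_nb.1 (mem_inter.1 hu).1)
      · exact ad_symm (mem_nb.1 (mem_inter.1 hu).2)
      · exact clique h hc hn hxy hu hv huv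
  · unfold KK
    rw [card_insert_of_notMem, card_insert_of_notMem]
    · exact c2 h hc hxy
    · intro h1
      exact hself y (mem_nb.1 (mem_inter.1 h1).2)
    · rw [mem_insert, not_or]
      refine ⟨hxy.1, fun h1 => ?_⟩
      exact hself x (mem_nb.1 (mem_inter.1 h1).1)

theorem Cl.eq_KK (h : IsNet n f) (hc : Fintype.card ι + 1 = n) (hn : 5 ≤ n) {L : Finset W}
    (hL : Cl f L) {x y : W} (hx : x ∈ L) (hy : y ∈ L) (hxy : x ≠ y) : L = KK f x y := by
  refine eq_of_subset_of_card_le ?_ ?_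
  · intro z hz
    unfold KK
    rw [mem_insert, mem_insert]
    by_cases h1 : z = x
    · exact Or.inl h1
    by_cases h2 : z = y
    · exact Or.inr (Or.inl h2)
    refine Or.inr (Or.inr (mem_inter.2 ⟨mem_nb.2 ?_, mem_nb.2 ?_⟩))
    · exact hL.1 x hx z hz (Ne.symm h1)
    · exact hL.1 y hy z hz (Ne.symm h2)
  · rw [(KK_cl h hc hn (hL.1 x hx y hy hxy)).2, hL.2]

theorem Cl.eq (h : IsNet n f) (hc : Fintype.card ι + 1 = n) (hn : 5 ≤ n) {L M : Finset W}
    (hL : Cl f L) (hM : Cl f M) {x y : W} (hx : x ∈ L) (hy : y ∈ L) (hx' : x ∈ M) (hy' : y ∈ M)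
    (hxy : x ≠ y) : L = M := (hL.eq_KK h hc hn hx hy hxy).trans (hM.eq_KK h hc hn hx' hy' hxy).symm

open Classical in
theorem one_adj (h : IsNet n f) (hc : Fintype.card ι + 1 = n) {L : Finset W}
    (hL : Cl f L) {p : W} (hp : p ∉ L) : (L.filter (fun w => ad f p w)).card = 1 := by
  have h1 : ∑ w ∈ L, ag f p w = Fintype.card ι := by
    unfold ag
    rw [sum_comm]
    have h2 : ∀ i ∈ (univ : Finset ι), ∑ w ∈ L, (if f i p = f i w then (1 : ℤ) else 0) = 1 := by
      intro i _
      have h3 : L.image (f i) = univ := by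
        refine eq_of_subset_of_card_le (subset_univ _) ?_
        rw [card_image_of_injOn, hL.2, card_univ, Fintype.card_fin]
        intro u hu v hv huv
        by_contra hne
        exact (hL.1 u hu v hv hne).2 i huv
      obtain ⟨w0, hw0, hw0'⟩ := mem_image.1 (h3 ▸ mem_univ (f i p) : f i p ∈ L.image (f i))
      have h4 : ∀ w ∈ L, (if f i p = f i w then (1 : ℤ) else 0) = if w = w0 then 1 else 0 := by
        intro w hw
        by_cases h5 : w = w0
        · rw [if_pos h5, h5, if_pos hw0'.symm]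
        · rw [if_neg h5, if_neg]
          intro h6
          exact (hL.1 w hw w0 hw0 h5).2 i (h6.symm.trans hw0'.symm)
      rw [sum_congr rfl h4, sum_ite_eq', if_pos hw0]
    rw [sum_congr rfl h2, sum_const, card_univ, nsmul_eq_mul, mul_one]
  have h2 : ((L.filter (fun w => ad f p w)).card : ℤ) = 1 := by
    rw [card_filter]
    push_cast
    have h3 : ∀ w ∈ L, (if ad f p w then (1 : ℤ) else 0) = 1 - ag f p w := by
      intro w hw
      rw [bb h p w, if_neg, add_zero]
      rintro rfl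
      exact hp hw
    rw [sum_congr rfl h3, sum_sub_distrib, h1, sum_const, hL.2, nsmul_eq_mul, mul_one]
    have : ((Fintype.card ι : ℤ) + 1) = n := by exact_mod_cast hc
    linarith
  exact_mod_cast h2

/-- the second clique of a word of the clique `K` -/
noncomputable def fib (f : ι → W → Fin n) (K : Finset W) (s : W) : Finset W := insert s (nb f s \ K)

theorem fib_cl (h : IsNet n f) (hc : Fintype.card ι + 1 = n) (hn : 5 ≤ n) {K : Finset W}
    (hK : Cl f K) {s : W} (hs : s ∈ K) : Cl f (fib f K s) := by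
  have h1 : nb f s ∩ K = K.erase s := by
    ext w
    rw [mem_inter, mem_erase, mem_nb]
    exact ⟨fun h2 => ⟨h2.1.1.symm, h2.2⟩, fun h2 => ⟨hK.1 s hs w h2.2 h2.1.symm, h2.2⟩⟩
  have h2 : (nb f s \ K).card + 1 = n := by
    have h3 := card_sdiff_add_card_inter (nb f s) K
    rw [h1, card_erase_of_mem hs, hK.2] at h3
    have h4 := c1 h hc s
    omega
  have h3 : (nb f s \ K).Nonempty := by
    rw [← card_pos]
    omega
  obtain ⟨y, hy⟩ := h3
  obtain ⟨hy1, hy2⟩ := mem_sdiff.1 hy
  have h4 : (fib f K s).card = n := by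
    unfold fib
    rw [card_insert_of_notMem]
    · exact h2
    · intro h5
      exact (mem_nb.1 (mem_sdiff.1 h5).1).1 rfl
  have h5 := KK_cl h hc hn (mem_nb.1 hy1)
  have h6 : KK f s y = fib f K s := by
    refine eq_of_subset_of_card_le ?_ (by rw [h4, h5.2])
    intro z hz
    unfold fib
    rw [mem_insert]
    by_cases hzs : z = s
    · exact Or.inl hzs
    have hs' : s ∈ KK f s y := by
      unfold KK
      exact mem_insert_self _ _
    refine Or.inr (mem_sdiff.2 ⟨mem_nb.2 (h5.1 s hs' z hz (Ne.symm hzs)), fun hzK => ?_⟩)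
    have h7 := Cl.eq h hc hn hK h5 hs hzK hs' hz (Ne.symm hzs)
    refine hy2 ?_
    rw [h7]
    unfold KK
    exact mem_insert_of_mem (mem_insert_self _ _)
  rw [← h6]
  exact h5

end

end Pool.Agent.Q251.SH
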